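import Mathlib
import Pool.Agent.Helper22.RKI.St

/-!
# Project RK, part (i), module RC
-/

set_option autoImplicit false

namespace Pool.Agent.Helper21.RKI

open Pool.Agent.Helper43.RK Pool.Agent.Helper22.RKI

private theorem conj_iter {G : Type} [Group G] (f t : G) (h : f⁻¹ * t * f = t ^ 2) (m : ℕ) :
    (f ^ m)⁻¹ * t * f ^ m = t ^ (2 ^ m) := by
  induction m with
  | zero => simp
  | succ m ih =>
    have h1 : (f ^ (m + 1))⁻¹ * t * f ^ (m + 1) = f⁻¹ * ((f ^ m)⁻¹ * t * f ^ m) * f := by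
      rw [pow_succ]; group
    rw [h1, ih]
    have h2 : f⁻¹ * t ^ (2 ^ m) * f = (f⁻¹ * t * f) ^ (2 ^ m) := by
      have := (map_pow (MulAut.conj f⁻¹) t (2 ^ m))
      simpa [MulAut.conj_apply] using this
    rw [h2, h, ← pow_mul, pow_succ, mul_comm]

theorem hRC : StRC := by
  intro hCOM n k β hP G _ g a t hB haa hg hf hal ht
  have hn : 0 < n := by
    rcases Nat.eq_zero_or_pos n with h | h
    · have := hP.nodd; rw [h] at this; simp at this
    · exact h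
  have hainv : a⁻¹ = a := inv_eq_of_mul_eq_one_left haa
  have hgd : ∀ m : ℕ, 8 * n ∣ m → g ^ m = 1 := by
    rintro m ⟨c, rfl⟩
    rw [pow_mul, hg, one_pow]
  have hk1 : 8 ∣ k + 1 := by have := hP.k8; omega
  refine ⟨haa, hf, hB.r2, ?_, ?_, ?_, ?_, ⟨4 ^ n - 1, ?_, ht⟩, hCOM _ G a t haa hal, hal, ⟨8 * n, by omega, hg⟩⟩
  · have h1 : a⁻¹ * g ^ β * a = g ^ (k * β) := by
      have := (map_pow (MulAut.conj a⁻¹) g β)
      have h2 : a⁻¹ * g ^ β * a = (a⁻¹ * g * a) ^ β := by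
        simpa [MulAut.conj_apply] using this
      rw [h2, hB.r1, ← pow_mul]
    have h3 : g ^ β * a * (g ^ β * a) = g ^ β * (a⁻¹ * g ^ β * a) := by
      rw [hainv]; group
    rw [h3, h1, ← pow_add]
    apply hgd
    obtain ⟨b, hb⟩ := hP.nb
    obtain ⟨c, hc⟩ := hk1
    refine ⟨b * c, ?_⟩
    have : β + k * β = β * (k + 1) := by ring
    rw [this, hc, hb]; ring
  · have h1 : (g ^ β * a)⁻¹ * t * (g ^ β * a) = a⁻¹ * ((g ^ β)⁻¹ * t * g ^ β) * a := by group
    rw [h1, hB.r3, hal]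
    have h2 : cj a t 1 = t⁻¹ * a * t := by
      unfold cj; simp
    rw [h2]
    have h3 : a⁻¹ * (a * (t⁻¹ * a * t) * t⁻¹) * a = t⁻¹ * (a * a) := by group
    rw [h3, haa, mul_one]
  · rw [← pow_mul]
    apply hgd
    obtain ⟨b, hb⟩ := hP.nb
    exact ⟨b, by rw [hb]; ring⟩
  · have h1 : (g ^ β) ^ 4 = (g ^ 4) ^ β := by
      rw [← pow_mul, ← pow_mul, mul_comm]
    rw [h1]
    exact conj_iter _ _ hB.r2 β
  · have : 1 < 4 ^ n := Nat.one_lt_pow (by omega) (by norm_num)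
    omega

end Pool.Agent.Helper21.RKI
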